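import Pool.Agent.Lib.MP_45bb13_gt.XAct
import Pool.Agent.Lib.MP_45bb13_gt.Word
import Pool.Agent.Lib.MP_45bb13_gt.PiC
import Pool.Agent.Lib.MP_45bb13_gt.Ori
import Pool.Agent.Lib.MP_45bb13_gt.XEv
import Pool.Agent.Lib.MP_45bb13_gt.SigB
import Pool.Agent.Lib.MP_45bb13_gt.Stmt

/-! A simply connected four-manifold with even form and nonzero signature that carries smooth
actions of all odd prime orders. -/

namespace Pool.Agent.Lib.MP_45bb13_gt.Variants.AllOddPrimes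

open Pool.Agent.Sing Pool.Agent.Lib.MP_18d288_gt Pool.Agent.Lib.MP_45bb13_gt

theorem result : ∃ (X : Type) (_ : TopologicalSpace X) (_ : T2Space X) (_ : CompactSpace X)
    (_ : SimplyConnectedSpace X) (μ : Ch ℤ X 4), IsFund μ ∧ EvenForm μ ∧ sig μ ≠ 0 ∧
      ∀ p : ℕ, p.Prime → p ≠ 2 → HasSmoothAction X p := by
  have i1 := (chB 0).t2
  have i2 := (chB 0).compact
  have i3 := (chB 0).simply
  have hX := (chB 0).locEuc
  obtain ⟨μ, h1, h2, h2'⟩ := exists_ori hX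
  refine ⟨(chB 0).X, inferInstance, i1, i2, i3, μ, h1,
    even_of_ev hX μ h1.1 h2 fun _ h => ev_X h,
    sig_ne_zero hX h1.1 h2' ((chB 0).bPlus_ne (by simp) μ h1.1 h2'), fun p hp hp2 => ?_⟩
  obtain ⟨q, rfl⟩ := hp.odd_of_ne_two hp2
  have h3 : 2 < 2 * q + 1 := lt_of_le_of_ne hp.two_le hp2.symm
  obtain ⟨ρ, r1, r2⟩ := (chB q).exists_act h3 fun i t => by
    have : (2 * q + 1 : ℝ) ≠ 0 := by positivity
    simp only [chB]
    rw [← fig_two ((2 * q + 1) * t + 2 * (i : ℕ) / 3)]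
    congr 1
    push_cast
    field_simp
    ring
  obtain ⟨e⟩ := rel_ch q
  exact ((chB q).good le_rfl fun i => contDiff_fig.comp (by fun_prop)).final e ρ r1 r2

end Pool.Agent.Lib.MP_45bb13_gt.Variants.AllOddPrimes
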